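import Pool.Agent.H68.QC.Targets

/-!
# (CDN) the number of the nodes
-/

set_option autoImplicit false

namespace Pool.Agent.H56.QC

open Pool.Agent.H68.QC Pool.Agent.H70.OQ Pool.Agent.H70.RK Pool.Agent.H6.NB Finset

theorem cdn_aux (n i : ℕ) : nod n i + 2 ^ (i + 1) * n = nod n (i + 1) := by
  unfold nod
  have h1 : 1 ≤ 2 ^ (i + 1) := Nat.one_le_two_pow
  obtain ⟨m, hm⟩ := Nat.exists_eq_add_of_le h1
  have h2 : 2 ^ (i + 1 + 1) = 2 * 2 ^ (i + 1) := by ring
  rw [h2, hm]
  have h3 : 1 + m - 1 = m := by omega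
  have h4 : 2 * (1 + m) - 1 = 2 * m + 1 := by omega
  rw [h3, h4]
  ring

theorem cdn_aux2 (n i : ℕ) : 2 ^ (i + 1) * n = n + nod n i := by
  unfold nod
  have h1 : 1 ≤ 2 ^ (i + 1) := Nat.one_le_two_pow
  obtain ⟨m, hm⟩ := Nat.exists_eq_add_of_le h1
  rw [hm]
  have h3 : 1 + m - 1 = m := by omega
  rw [h3]
  ring

theorem pf_CDN : T_CDN := by
  intro n i
  constructor
  · induction i with
    | zero =>
      have h : Fintype.card (Nn n 0) = Fintype.card (Fin n → Bool) := Fintype.card_congr (Equiv.refl _)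
      rw [h, Fintype.card_fun, Fintype.card_bool, Fintype.card_fin]
      unfold nod
      norm_num
    | succ i ih =>
      have h : Fintype.card (Nn n (i + 1)) = Fintype.card (Nn n i × Ys n i) :=
        Fintype.card_congr (Equiv.refl _)
      rw [h, Fintype.card_prod, ih, Fintype.card_fun, Fintype.card_bool, Fintype.card_fin, ← pow_add,
        cdn_aux]
  · rw [Fintype.card_fun, Fintype.card_bool, Fintype.card_fin, cdn_aux2, pow_add]

end Pool.Agent.H56.QC
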